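import Pool.Agent.Q331.FC.Stmts

set_option autoImplicit false

open MeasureTheory ProbabilityTheory Filter Topology Finset Pool.Agent.Q331.FC

namespace Pool.Agent.Q11.FCEqui

theorem main : Pool.Agent.Q331.FC.TaskEqui := by
  intro hP E _ ν _ φ hφ
  rw [ae_all_iff]
  intro i
  induction i with
  | zero => exact Filter.Eventually.of_forall fun y => rfl
  | succ i ih =>
    have h1 : MeasurePreserving ((sh (E := E))^[i]) (iid ν) (iid ν) := (hP E ν).iterate i
    have h2 := h1.quasiMeasurePreserving.ae hφ
    filter_upwards [ih, h2] with y h3 h4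
    rw [Function.iterate_succ_apply', Function.iterate_succ_apply', h4, h3]

end Pool.Agent.Q11.FCEqui
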