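import Pool.Agent.Q18.HQ.Stmts

set_option autoImplicit false

open Pool.Agent.Q18.HQ Matrix

namespace Pool.Agent.Q11.HQHankel

theorem det5 (t : ℚ) : (!![5, 0, 26, 0, 194; 0, 26, 0, 194, 5 * t; 26, 0, 194, 5 * t, 1586;
    0, 194, 5 * t, 1586, 91 * t; 194, 5 * t, 1586, 91 * t, 13634] : Matrix (Fin 5) (Fin 5) ℚ).det =
    3125 * t ^ 4 - 2612844 * t ^ 2 + 466560000 := by
  rw [Matrix.det_succ_row_zero]
  simp only [Fin.sum_univ_succ]
  simp [Matrix.det_succ_row_zero, Fin.sum_univ_succ, Fin.succAbove, Matrix.submatrix]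
  ring

theorem main : Pool.Agent.Q18.HQ.TaskHankel := by
  intro s t h1 h2 h3 h4 h5 h6 h7 h8
  refine ⟨(Matrix.vandermonde s).det, ?_⟩
  have h : (Matrix.vandermonde s).det ^ 2 =
      ((Matrix.vandermonde s)ᵀ * Matrix.vandermonde s).det := by
    rw [Matrix.det_mul, Matrix.det_transpose, sq]
  rw [h, ← det5 t]
  congr 1
  ext i j
  rw [Matrix.vandermonde_transpose_mul_vandermonde]
  fin_cases i <;> fin_cases j <;> simp [h1, h2, h3, h4, h5, h6, h7, h8]

end Pool.Agent.Q11.HQHankel
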